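import Pool.Agent.MP_6428c8_nt.H77.Final

set_option autoImplicit false

namespace Pool.Agent.Results.MP_6428c8_nt.SNumberType

open Polynomial Filter

/-- Mahler's exponent `w_n(ξ)`: the supremum of the real `w` such that
`0 < |P(ξ)| ≤ H(P)^(-w)` for infinitely many integer polynomials `P` of degree at most `n`.
The naive height `H(P)` is `P.supNorm`, the largest absolute value of a coefficient. -/
noncomputable def wM (n : ℕ) (ξ : ℝ) : EReal :=
  ⨆ (w : ℝ) (_ : {P : ℤ[X] | P.natDegree ≤ n ∧ 0 < |aeval ξ P| ∧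
    |aeval ξ P| ≤ P.supNorm ^ (-w)}.Infinite), (w : EReal)

/-- Koksma's exponent `w_n^*(ξ)`: the supremum of the real `w` such that
`0 < |ξ - α| ≤ H(α)^(-w-1)` for infinitely many real algebraic `α` of degree at most `n`.
Here `P` is the minimal polynomial of `α` over `ℤ`: irreducible in `ℤ[X]`, with positive leading
coefficient and vanishing at `α`. -/
noncomputable def wK (n : ℕ) (ξ : ℝ) : EReal :=
  ⨆ (w : ℝ) (_ : {α : ℝ | ∃ P : ℤ[X], Irreducible P ∧ 0 < P.leadingCoeff ∧ aeval α P = 0 ∧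
    P.natDegree ≤ n ∧ 0 < |ξ - α| ∧ |ξ - α| ≤ P.supNorm ^ (-w - 1)}.Infinite), (w : EReal)

open Pool.Agent.MP_6428c8_nt.H77 in
/-- There is a real S-number for which the lim sup is strictly smaller than the sup, both for
Mahler's and for Koksma's exponents. -/
theorem result : ∃ ξ : ℝ, Transcendental ℚ ξ ∧
    limsup (fun n : ℕ => wM n ξ / (n : EReal)) atTop < ⊤ ∧
    (limsup (fun n : ℕ => (wM n ξ + 1) / ((n : EReal) + 1)) atTop <
      ⨆ (n : ℕ) (_ : 1 ≤ n), (wM n ξ + 1) / ((n : EReal) + 1)) ∧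
    (limsup (fun n : ℕ => (wK n ξ + 1) / ((n : EReal) + 1)) atTop <
      ⨆ (n : ℕ) (_ : 1 ≤ n), (wK n ξ + 1) / ((n : EReal) + 1)) := by
  obtain ⟨p, hp1, hp⟩ := Nat.exists_infinite_primes 10000
  have := Fact.mk hp
  have hP : (10000 : ℝ) ≤ p := by exact_mod_cast hp1
  have hM := ereal_main (fun n => wM n (FF p (1 / 2))) p (by linarith) p (fun n hn => by
    refine iSup₂_le fun w hw => EReal.coe_le_coe_iff.mpr ?_
    by_contra hlt
    refine hw (((LB_main hp1 hn).finite (not_le.mp hlt) 1).subset fun P h => ⟨?_, h.1, ?_⟩)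
    · rintro rfl; simpa using h.2.1
    · rw [one_mul]; exact h.2.2) (le_iSup₂_of_le ((p : ℝ) - 2) infinite_M le_rfl)
  have hK := ereal_main (fun n => wK n (FF p (1 / 2))) p (by linarith) p (fun n hn => by
    refine iSup₂_le fun w hw => EReal.coe_le_coe_iff.mpr ?_
    by_contra hlt
    have hn' : (p : ℝ) ≤ n := by exact_mod_cast hn
    refine hw (((LB_main hp1 hn).finite_star xi_le_one (not_le.mp hlt) ?_).subset ?_)
    · have := not_le.mp hlt
      nlinarith
    · rintro α ⟨P, h1, -, h2, h3, -, h4⟩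
      exact ⟨P, h1.ne_zero, h3, h2, h4⟩) (le_iSup₂_of_le ((p : ℝ) - 2) infinite_K le_rfl)
  exact ⟨FF p (1 / 2), xi_transcendental hp1, hM.1, hM.2, hK.2⟩

end Pool.Agent.Results.MP_6428c8_nt.SNumberType
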